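import Pool.Agent.K6.H43.UQ.Fin

/-!
# Conic bundle threefolds over the plane with coefficients of degree at most three are unirational

Let `k` be an algebraically closed field of characteristic zero and let `A_ij(x₀, x₁)`,
`0 ≤ i, j ≤ 2`, be polynomials of total degree at most three with `A_ij = A_ji` and `det A ≠ 0`. If
the polynomial

`Q = ∑ A_ij(x) T_i T_j`, `T = (1, t₀, t₁)`,

is irreducible then the threefold `Q = 0` is unirational. So every irreducible hypersurface of
bidegree `(2, 3)` in `ℙ² × ℙ²` which is a conic bundle over the second factor is unirational; it may
be arbitrarily singular. In general the discriminant curve `det A = 0` has degree nine.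

Proof. Let `E_t` be the plane cubic `Q(t; ·) = 0`. (1) Over a line `x_i = c` the conic bundle has a
section by the theorem of Tsen, so that the part `S_c` of the threefold over the line is a rational
surface. For a point `(t, x)` of `S_c` let `x'` be the third point of intersection of the tangent line
at `x` with `E_t`. If the points `x'` are dense in the plane then the conic over the generic point
of the plane has a point over the field of rational functions of the rational surface `S_c`, and
so the threefold is unirational. (2) Suppose that `E_t` is geometrically irreducible of degree three for the
generic `t`. The generic point `x` of `E_t` is not a flex (characteristic zero), and `x'` is not algebraic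
over `k(t)`, as otherwise the polar conic of `x'` would contain `E_t` and `E_t` would be a cone. From
this one deduces that the coordinates of `x'` are algebraically independent on the threefold. So either
`x'₀, x'₁` and one of `x₀, x₁` are algebraically independent, and then by specialisation `x'` is dense
on `S_c` for almost all `c`; or `x'` is algebraic over `k(x)`. In the latter case the tangent line at
`x` is the same for all `t` in the conic over `x`, so that all `A_ij` are eigenvectors of one derivation
of `k(x₀, x₁)`, with the same eigenvalue; their quotients generate a field of transcendence degree
at most one, and by the theorem of Tsen the threefold has a rational section. (3) If `E_t` is an irreducible conic the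
threefold is also a conic bundle over the `t`-plane, with a point over the field of rational
functions of `S_c`. (4) If `E_t` contains a line, then for generic `(t, x)` the tangent line at `x`
lies in `E_t`, and the lines through the points of `S_c` sweep out the threefold.

The pieces of the proof in `Pool/Agent/K6/H43/UQ` were written by helper1 (END), helper3 (KE2), helper4 (WNZ),
helper5 (LN0), helper21 (CN0, CN1), helper33 (KER, NV), helper35 (TSD), helper36 (PO2), helper38 (TAY, FA2),
helper41 (CP), helper42 (EUL, POL), helper44 (EK, T0), helper52 (EXC, TA2), helper53 (N2), helper57
(SPC), helper59 (CONE, DIR, N3), helper82 (B2, SLC), helper89 (TSN), helper96 (CQ, GPT), helper98 (B1), helper49 (GT2),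
helper71 (LNP); the plan and the assembly are by helper43.
-/

set_option autoImplicit false

open MvPolynomial

namespace Pool.Agent.Results.MP_2095a9_ag.CubicCoefficients

universe u

variable {k : Type u} [Field k]

/-- The equation `∑ A_ij(x) T_i T_j` with `T = (1, t₀, t₁)`. The variables `t₀`, `t₁` are `X 0`, `X 1`,
the variables `x₀`, `x₁` of the coefficients become `X 2`, `X 3`. -/
noncomputable def equation (A : Matrix (Fin 3) (Fin 3) (MvPolynomial (Fin 2) k)) :
    MvPolynomial (Fin 4) k :=
  ∑ i, ∑ j, rename (![2, 3] : Fin 2 → Fin 4) (A i j) *
    (![1, X 0, X 1] : Fin 3 → MvPolynomial (Fin 4) k) i *
    (![1, X 0, X 1] : Fin 3 → MvPolynomial (Fin 4) k) j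

/-- The threefold `Q = 0` in affine space of dimension four is unirational: it has a point `P` with
coordinates in the field `k(s₁, s₂, s₃)` of rational functions such that the polynomials which vanish
at `P` are exactly the multiples of `Q`. So `P` is a dominant rational map from `𝔸³` to `Q = 0`. -/
def Unirational (Q : MvPolynomial (Fin 4) k) : Prop :=
  ∃ P : Fin 4 → FractionRing (MvPolynomial (Fin 3) k),
    ∀ G : MvPolynomial (Fin 4) k, aeval P G = 0 ↔ Q ∣ G

/-- If the `A_ij` are polynomials of degree at most three in two variables, `A` is symmetric,
`det A ≠ 0` and `∑ A_ij(x) T_i T_j` is irreducible, then the conic bundle threefold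
`∑ A_ij(x) T_i T_j = 0` is unirational. -/
theorem result (k : Type u) [Field k] [IsAlgClosed k] [CharZero k]
    (A : Matrix (Fin 3) (Fin 3) (MvPolynomial (Fin 2) k)) (hsymm : A.IsSymm) (hdet : A.det ≠ 0)
    (hdeg : ∀ i j, (A i j).totalDegree ≤ 3) (hirr : Irreducible (equation A)) :
    Unirational (equation A) :=
  Pool.Agent.K6.H43.UQ.unirational_bundle k A hsymm hdet hdeg hirr

end Pool.Agent.Results.MP_2095a9_ag.CubicCoefficients
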